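import Pool.Agent.H73.GWT.Stmts

/-!
# Row PLY of project GWT (polygon lemma)
-/

set_option autoImplicit false

namespace GWT

variable {ι G V : Type*} [Fintype ι] [Group G] [MulAction G V] (C : Code ι G V)

/-- the comparison of a side of the polygon with the new block -/
theorem PLY_cmp (θ : ℕ) (x y : G) (m : V)
    (hm : Bt C.T (x • C.o) m (x • y • C.o))
    (c g : G) (P Q : V)
    (h1 : C.d m P + C.d P Q + C.d Q (x • C.o) = C.d m (x • C.o))
    (h2 : θ ≤ C.d P Q)
    (h3 : C.d (g • C.o) P + C.d P Q + C.d Q (g • c • C.o) = C.d C.o (c • C.o)) :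
    Cmp C θ c y := by
  refine ⟨g⁻¹ * x, g⁻¹ • P, g⁻¹ • Q, ?_, ?_, ?_⟩
  · have e1 : C.d (g⁻¹ • P) (g⁻¹ • Q) = C.d P Q := C.ds g⁻¹ P Q
    omega
  · have e1 : C.d (g⁻¹ • P) (g⁻¹ • Q) = C.d P Q := C.ds g⁻¹ P Q
    have e2 : C.d C.o (g⁻¹ • P) = C.d (g • C.o) P := by
      have := C.ds g⁻¹ (g • C.o) P
      rw [inv_smul_smul] at this
      exact this
    have e3 : C.d (g⁻¹ • Q) (c • C.o) = C.d Q (g • c • C.o) := by
      have := C.ds g⁻¹ Q (g • c • C.o)
      rw [inv_smul_smul] at this
      exact this
    omega
  · have e1 : C.d (g⁻¹ • Q) (g⁻¹ • P) = C.d Q P := C.ds g⁻¹ Q P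
    have e2 : C.d ((g⁻¹ * x) • C.o) (g⁻¹ • Q) = C.d (x • C.o) Q := by
      rw [mul_smul]
      exact C.ds g⁻¹ (x • C.o) Q
    have e3 : C.d (g⁻¹ • P) ((g⁻¹ * x) • y • C.o) = C.d P (x • y • C.o) := by
      rw [mul_smul]
      exact C.ds g⁻¹ P (x • y • C.o)
    have e4 : C.d (x • C.o) (x • y • C.o) = C.d C.o (y • C.o) := C.ds x C.o (y • C.o)
    have hm' : C.d (x • C.o) m + C.d m (x • y • C.o) = C.d (x • C.o) (x • y • C.o) := hm
    have t1 : C.d P (x • y • C.o) ≤ C.d P m + C.d m (x • y • C.o) := dtri C.tree _ _ _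
    have t2 : C.d (x • C.o) (x • y • C.o) ≤ C.d (x • C.o) P + C.d P (x • y • C.o) :=
      dtri C.tree _ _ _
    have t3 : C.d (x • C.o) P ≤ C.d (x • C.o) Q + C.d Q P := dtri C.tree _ _ _
    have c1 : C.d P m = C.d m P := dcomm _ _
    have c2 : C.d Q P = C.d P Q := dcomm _ _
    have c3 : C.d (x • C.o) Q = C.d Q (x • C.o) := dcomm _ _
    have c4 : C.d (x • C.o) m = C.d m (x • C.o) := dcomm _ _
    omega

theorem PLY (B : Type*) (h1 : PPSStmt C) : PLYStmt C B := by
  intro val sh cmp θ E ok hE hcmp bs
  induction bs using List.reverseRecOn with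
  | nil =>
    intro _
    refine ⟨([], 0), ?_, ?_, ?_, ?_, ?_⟩
    · simp [runs]
    · simp [Pc]
    · intro c hc
      simp at hc
    · simp
    · simp
  | append_singleton bs b ih =>
    intro hok
    obtain ⟨⟨σ, cl⟩, hcfg, hPc, hσ, hcnt, hsum⟩ := ih (fun c hc => hok c (List.mem_append_left _ hc))
    have hokb : ok b := hok b (by simp)
    simp only at hPc hσ hcnt hsum
    set x : G := (bs.map val).prod with hx
    have hprod : ((bs ++ [b]).map val).prod • C.o = x • val b • C.o := by
      rw [List.map_append, List.prod_append, ← hx]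
      simp [mul_smul]
    obtain ⟨c1, c2, c3⟩ := cen_spec C.tree C.o (x • C.o) (x • val b • C.o)
    set m := cen C.tree C.o (x • C.o) (x • val b • C.o) with hmdef
    obtain ⟨r, hr, hP, hor⟩ := h1 θ (fun c => Cmp C θ c (val b)) (σ.map val) (x • C.o) m hPc c1
      (fun c g P Q k1 k2 k3 => PLY_cmp C θ x (val b) m c2 c g P Q k1 k2 k3)
    rw [List.length_map] at hr
    -- the claim
    have hclm : ¬ (clm sh cmp b σ r = true) → C.d m (x • C.o) ≤ θ * (r + 1) := by
      intro hn
      rcases hor with h | ⟨c', hc', hq⟩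
      · exact h
      · exfalso
        apply hn
        rw [← List.map_take] at hc'
        obtain ⟨c, hc, rfl⟩ := List.mem_map.1 hc'
        have hokc : ok c := hσ c (List.mem_of_mem_take hc)
        have := hcmp c b hokc hokb hq
        unfold clm
        rw [Bool.or_eq_true]
        right
        rw [List.any_eq_true]
        exact ⟨c, hc, this⟩
    have hshc : sh b = true → clm sh cmp b σ r = true := by
      intro h
      unfold clm
      rw [h, Bool.true_or]
    refine ⟨(b :: σ.drop r, cl + if clm sh cmp b σ r then 1 else 0), ?_, ?_, ?_, ?_, ?_⟩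
    · unfold runs
      rw [List.foldl_append, List.foldl_cons, List.foldl_nil, List.mem_flatMap]
      refine ⟨(σ, cl), hcfg, ?_⟩
      unfold stp
      rw [List.mem_map]
      exact ⟨r, List.mem_range.2 (by simp only; omega), rfl⟩
    · rw [hprod]
      simp only [List.map_cons]
      refine ⟨x, m, c3, ?_, ?_⟩
      · have e1 : C.d (x • val b • C.o) (x • val b • C.o) = 0 := SimpleGraph.dist_self
        have e4 : C.d (x • C.o) (x • val b • C.o) = C.d C.o (val b • C.o) := C.ds x C.o (val b • C.o)
        have c2' : C.d (x • C.o) m + C.d m (x • val b • C.o) = C.d (x • C.o) (x • val b • C.o) := c2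
        omega
      · rw [List.map_drop]
        exact hP
    · intro c hc
      rcases List.mem_cons.1 hc with rfl | hc
      · exact hokb
      · exact hσ c (List.mem_of_mem_drop hc)
    · rw [List.countP_append, List.countP_singleton]
      by_cases hs : sh b = true
      · have hc := hshc hs
        simp only [hs, hc, if_true]
        omega
      · simp only [hs]
        simp only [Bool.false_eq_true, if_false, add_zero]
        exact le_trans hcnt (Nat.le_add_right _ _)
    · rw [hprod, List.map_append, List.sum_append]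
      simp only [List.map_cons, List.map_nil, List.sum_cons, List.sum_nil, add_zero,
        List.length_cons, List.length_append, List.length_nil, List.length_drop, zero_add]
      have e4 : C.d (x • C.o) (x • val b • C.o) = C.d C.o (val b • C.o) := C.ds x C.o (val b • C.o)
      have c1' : C.d C.o m + C.d m (x • C.o) = C.d C.o (x • C.o) := c1
      have c2' : C.d (x • C.o) m + C.d m (x • val b • C.o) = C.d (x • C.o) (x • val b • C.o) := c2
      have c3' : C.d C.o m + C.d m (x • val b • C.o) = C.d C.o (x • val b • C.o) := c3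
      have c4 : C.d (x • C.o) m = C.d m (x • C.o) := dcomm _ _
      have hEb := hE b hokb
      have hlen : σ.length = (σ.length - r) + r := by omega
      set s := σ.length - r with hs
      have hsum' : (bs.map (fun b => C.d C.o (val b • C.o))).sum + 2 * θ * (s + r) ≤
          C.d C.o (x • C.o) + 2 * E * cl + 4 * θ * bs.length := by
        rw [← hlen]
        exact hsum
      by_cases hc : clm sh cmp b σ r = true
      · rw [if_pos hc]
        have hmE : C.d m (x • C.o) ≤ E := by omega
        have n1 : 0 ≤ θ * r := Nat.zero_le _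
        nlinarith [hmE, hsum', n1]
      · rw [if_neg hc]
        have hmθ := hclm hc
        nlinarith [hmθ, hsum']

end GWT
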